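import Pool.Agent.W2helper40.BH.Cln

/-!
Project BH: assembly.
-/

set_option autoImplicit false

namespace Pool.Agent.W2helper40.BH

open MeasureTheory

theorem assemble (hRep : PropRep) (hDel : PropDel) (hExi : PropExi) (hCln : PropCln)
    (hBas : PropBas) : Goal := by
  classical
  intro h hh
  obtain ⟨ε₀, hε₀, hcln⟩ := hCln h hh
  have hhr : (0 : ℝ) < h := by exact_mod_cast hh
  have hb : (0 : ℝ) < (h : ℝ) / (h + 1) := by positivity
  set ε : ℝ := min ε₀ ((h : ℝ) / (h + 1) / 2) with hε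
  have hεpos : 0 < ε := lt_min hε₀ (by positivity)
  have hεlt : ε < (h : ℝ) / (h + 1) := lt_of_le_of_lt (min_le_right _ _) (by linarith)
  obtain ⟨n₀, hn₀, hcl⟩ := hcln ε hεpos (min_le_left _ _)
  obtain ⟨μ, hμ⟩ := hExi (dens ((h : ℝ) / (h + 1) - ε) n₀) (by
    intro a
    refine ⟨dens_nonneg _ _ _, ?_⟩
    unfold dens
    split_ifs with ha
    · apply Real.rpow_le_one_of_one_le_of_nonpos
      · exact_mod_cast le_trans hn₀ ha
      · linarith
    · norm_num)
  have h1 := hcl μ hμ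
  have h2 := hBas h ε n₀ hh hεpos hεlt hn₀ μ hμ
  have h3 : μ {ω | ω 0 = true} = 0 := by
    refine measure_mono_null ?_ (null_small hμ)
    intro ω hω
    exact Set.mem_iUnion₂.mpr ⟨0, Finset.mem_range.mpr (by omega), hω⟩
  obtain ⟨ω, hω1, hω2, hω3⟩ : ∃ ω, Clean h (Ran ω) ∧
      ((∀ (m : ℕ) (F : Finset (Multiset ℕ)), (∀ s ∈ F, s ∈ Reps (Ran ω) h m) →
          F.card ≤ h + 1) →
        ∃ n₁ : ℕ, ∀ n ≥ n₁, ∃ r : Fin (h + 2) → Multiset ℕ,
          (∀ i, r i ∈ Reps (Ran ω) (h + 1) n) ∧ ∀ i j, i ≠ j → Disjoint (r i) (r j)) ∧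
      0 ∉ Ran ω := by
    by_contra hne
    push Not at hne
    have hprob := hμ.1
    rw [ae_iff] at h2
    have h4 : (Set.univ : Set (ℕ → Bool)) ⊆ {ω | ¬ Clean h (Ran ω)} ∪
        ({ω | ¬ ((∀ (m : ℕ) (F : Finset (Multiset ℕ)), (∀ s ∈ F, s ∈ Reps (Ran ω) h m) →
          F.card ≤ h + 1) →
        ∃ n₁ : ℕ, ∀ n ≥ n₁, ∃ r : Fin (h + 2) → Multiset ℕ,
          (∀ i, r i ∈ Reps (Ran ω) (h + 1) n) ∧ ∀ i j, i ≠ j → Disjoint (r i) (r j))} ∪
          {ω | ω 0 = true}) := by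
      intro ω _
      by_cases hc : Clean h (Ran ω)
      · right
        by_cases hb : ((∀ (m : ℕ) (F : Finset (Multiset ℕ)), (∀ s ∈ F, s ∈ Reps (Ran ω) h m) →
          F.card ≤ h + 1) →
        ∃ n₁ : ℕ, ∀ n ≥ n₁, ∃ r : Fin (h + 2) → Multiset ℕ,
          (∀ i, r i ∈ Reps (Ran ω) (h + 1) n) ∧ ∀ i j, i ≠ j → Disjoint (r i) (r j))
        · right
          exact hne ω hc hb
        · left
          exact hb
      · left
        exact hc
    have h5 : μ Set.univ ≤ μ {ω | ¬ Clean h (Ran ω)} + (0 + 0) := by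
      refine (measure_mono h4).trans ((measure_union_le _ _).trans ?_)
      gcongr
      refine (measure_union_le _ _).trans ?_
      rw [h2, h3]
    rw [measure_univ, add_zero, add_zero] at h5
    exact absurd (lt_of_le_of_lt h5 h1) (lt_irrefl _)
  set A : Set ℕ := {a | a ∈ Ran ω ∧ ¬ Del (Ran ω) h a} with hA
  have hsub : ∀ k n, Reps A k n ⊆ Reps (Ran ω) k n := by
    rintro k n s ⟨hs1, hs2, hs3⟩
    exact ⟨hs1, fun a ha => (hs2 a ha).1, hs3⟩
  refine ⟨A, fun h0 => hω3 h0.1, ?_, ?_⟩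
  · intro k n hk1 hkh
    have hrep := hRep h (Ran ω) hh hω3 hω1 k n hk1 hkh
    have hfin : (Reps A k n).Finite := by
      by_contra hinf
      obtain ⟨F, hF1, hF2⟩ := Set.Infinite.exists_subset_card_eq hinf (h + 2)
      have h4 := (hrep F fun s hs => hsub k n (hF1 hs)).1
      rw [hF2] at h4
      have h5 : 1 ≤ h + 1 - k := by omega
      have h6 : (h + 2) * 1 ≤ (h + 2) * (h + 1 - k) := Nat.mul_le_mul_left _ h5
      omega
    refine ⟨hfin, ?_⟩
    rw [Set.ncard_eq_toFinset_card _ hfin]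
    set F := hfin.toFinset with hF
    have hFm : ∀ s ∈ F, s ∈ Reps A k n := fun s hs => by simpa [hF] using hs
    obtain ⟨h4, h5⟩ := hrep F fun s hs => hsub k n (hFm s hs)
    rcases Nat.lt_or_ge (F.card * (h + 1 - k)) (h + 1) with hlt | hge
    · omega
    · exfalso
      have heq : F.card * (h + 1 - k) = h + 1 := le_antisymm h4 hge
      have ht := h5 heq
      have hne : F.Nonempty := by
        rw [← Finset.card_pos]
        rcases Nat.eq_zero_or_pos F.card with h0 | h0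
        · rw [h0] at heq
          omega
        · exact h0
      obtain ⟨s, hs⟩ := hne
      have hX : (F.biUnion fun s => s.toFinset).Nonempty := by
        have hcard := (hFm s hs).1
        have hs0 : 0 < Multiset.card s := by omega
        obtain ⟨a, ha⟩ := Multiset.card_pos_iff_exists_mem.mp hs0
        exact ⟨a, Finset.mem_biUnion.mpr ⟨s, hs, Multiset.mem_toFinset.mpr ha⟩⟩
      obtain ⟨z, hz1, hz2⟩ := Finset.exists_max_image _ (fun a => a) hX
      obtain ⟨t, ht1, ht2⟩ := Finset.mem_biUnion.mp hz1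
      have hzA := (hFm t ht1).2.1 z (Multiset.mem_toFinset.mp ht2)
      exact hzA.2 ⟨k, F, n, ht, ⟨t, ht1, Multiset.mem_toFinset.mp ht2⟩, fun u hu a ha =>
        hz2 a (Finset.mem_biUnion.mpr ⟨u, hu, Multiset.mem_toFinset.mpr ha⟩)⟩
  · obtain ⟨n₁, hn₁⟩ := hω2 (by
      intro m F hF
      have h4 := (hRep h (Ran ω) hh hω3 hω1 h m hh le_rfl F hF).1
      have h5 : h + 1 - h = 1 := by omega
      rw [h5, mul_one] at h4
      exact h4)
    refine ⟨n₁, fun n hn => ?_⟩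
    obtain ⟨r, hr1, hr2⟩ := hn₁ n hn
    have h4 := hDel h (Ran ω) hh hω3 hω1 n r hr1 hr2
    push Not at h4
    obtain ⟨i, hi⟩ := h4
    exact ⟨r i, (hr1 i).1, fun a ha => ⟨(hr1 i).2.1 a ha, hi a ha⟩, (hr1 i).2.2⟩

end Pool.Agent.W2helper40.BH
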