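import Pool.Agent.W2helper40.BH.Occ2

/-!
Project BH: the random set is clean with positive probability.
-/

set_option autoImplicit false

namespace Pool.Agent.W2helper40.BH

open MeasureTheory

theorem tail (δ : ℝ) (hδ : 0 < δ) (c : ENNReal) (hc : 0 < c) :
    ∃ n₀ : ℕ, 1 ≤ n₀ ∧ ∑' y, g0 δ n₀ y < c := by
  set f : ℕ → ENNReal := fun y => ENNReal.ofReal ((y : ℝ) ^ (-(1 + δ))) with hf
  have h1 : Summable fun y : ℕ => (y : ℝ) ^ (-(1 + δ)) := by
    rw [Real.summable_nat_rpow]
    linarith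
  have h2 : ∑' y, f y ≠ ⊤ := h1.tsum_ofReal_ne_top
  have h3 := ENNReal.tendsto_tsum_compl_atTop_zero h2
  have h4 := (tendsto_order.mp h3).2 c hc
  rw [Filter.eventually_atTop] at h4
  obtain ⟨s, hs⟩ := h4
  obtain ⟨n, hn⟩ := s.exists_nat_subset_range
  refine ⟨n + 1, by omega, ?_⟩
  have h5 := hs (Finset.range (n + 1)) (hn.trans (Finset.range_mono (by omega)))
  have h6 : ∑' y, g0 δ (n + 1) y =
      ∑' b : {x // x ∉ Finset.range (n + 1)}, f b := by
    have := tsum_subtype {x : ℕ | x ∉ Finset.range (n + 1)} f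
    rw [show (∑' b : {x // x ∉ Finset.range (n + 1)}, f b) =
      ∑' x : {x : ℕ | x ∉ Finset.range (n + 1)}, f x from rfl, this]
    apply tsum_congr
    intro y
    unfold g0
    by_cases hy : n + 1 ≤ y
    · rw [if_pos hy, Set.indicator_of_mem]
      simp only [Set.mem_ofPred_eq, Finset.mem_range]
      omega
    · rw [if_neg hy, Set.indicator_of_notMem]
      simp only [Set.mem_ofPred_eq, Finset.mem_range]
      omega
  rw [h6]
  exact h5

theorem occ_of_not_clean (h : ℕ) (ω : ℕ → Bool) (hω : ¬ Clean h (Ran ω)) :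
    ∃ (v d : ℕ) (E : Fin d → Fin v → ℤ), v ≤ V h ∧ d ≤ V h ∧ (∀ a i, |E a i| ≤ h + 1) ∧
      LinearIndependent ℚ (ratE E) ∧ v < (h + 1) * d ∧ ω ∈ Occ E := by
  classical
  unfold Clean at hω
  push Not at hω
  obtain ⟨X, hXA, hXV, d, e, he, hind, hlt⟩ := hω
  set x : Fin X.card ↪o ℕ := X.orderEmbOfFin rfl with hx
  have hxX : ∀ i, x i ∈ X := fun i => X.orderEmbOfFin_mem rfl i
  choose E0 hE0 hE0' using fun a y => (he a).1 y
  set E : Fin d → Fin X.card → ℤ := fun a i => E0 a (x i) with hE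
  have hrat : ratE E = fun a => (fun i => e a (x i)) := by
    funext a i
    simp only [ratE, hE]
    exact (hE0 a (x i)).symm
  have hsum : ∀ g : ℕ → ℚ, ∑ i, g (x i) = ∑ y ∈ X, g y := by
    intro g
    have h1 : Finset.univ.map x.toEmbedding = X := by
      have := Finset.map_orderEmbOfFin_univ X rfl
      exact this
    have h2 : ∑ y ∈ Finset.univ.map x.toEmbedding, g y = ∑ i, g (x i) := Finset.sum_map _ _ _
    rw [← h2, h1]
  have hind' : LinearIndependent ℚ (ratE E) := by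
    rw [Fintype.linearIndependent_iff] at hind ⊢
    intro g hg
    apply hind g
    funext y
    by_cases hy : y ∈ X
    · have hy' : y ∈ Set.range x := by
        rw [hx, Finset.range_orderEmbOfFin]
        exact hy
      obtain ⟨i, rfl⟩ := hy'
      have h2 := congrFun hg i
      rw [hrat] at h2
      simpa using h2
    · simp only [Finset.sum_apply, Pi.smul_apply, Pi.zero_apply]
      apply Finset.sum_eq_zero
      intro a _
      rw [(he a).2.1 y hy]
      simp
  have hdX : d ≤ X.card := by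
    have h1 := hind'.fintype_card_le_finrank
    simpa using h1
  refine ⟨X.card, d, E, hXV, le_trans hdX hXV, fun a i => hE0' a (x i), hind', hlt, ?_⟩
  refine ⟨fun i => x i, x.strictMono, fun i => hXA _ (hxX i), ?_⟩
  intro a
  have h1 := (he a).2.2
  rw [← hsum (fun y => e a y * (y : ℚ))] at h1
  have h2 : ((∑ i, E a i * ((x i : ℕ) : ℤ) : ℤ) : ℚ) = 0 := by
    push_cast
    rw [← h1]
    apply Finset.sum_congr rfl
    intro i _
    have : (E a i : ℚ) = e a (x i) := (hE0 a (x i)).symm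
    rw [this]
  exact_mod_cast h2

/-- codes of patterns -/
abbrev Pat (h : ℕ) : Type :=
  Σ v : Fin (V h + 1), Σ d : Fin (V h + 1), (Fin d.val → Fin v.val → Fin (2 * (h + 1) + 1))

/-- decoding -/
def dec (h : ℕ) {v d : ℕ} (c : Fin d → Fin v → Fin (2 * (h + 1) + 1)) : Fin d → Fin v → ℤ :=
  fun a i => ((c a i).val : ℤ) - (h + 1)

theorem exists_code (h : ℕ) {v d : ℕ} (E : Fin d → Fin v → ℤ) (hE : ∀ a i, |E a i| ≤ h + 1) :
    ∃ c : Fin d → Fin v → Fin (2 * (h + 1) + 1), dec h c = E := by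
  refine ⟨fun a i => ⟨(E a i + (h + 1)).toNat, ?_⟩, ?_⟩
  · have := abs_le.mp (hE a i)
    omega
  · funext a i
    have := abs_le.mp (hE a i)
    simp only [dec]
    omega

theorem cln : PropCln := by
  intro h hh
  have hV : 0 < V h := by
    unfold V
    positivity
  have hVr : (0 : ℝ) < V h := by exact_mod_cast hV
  have hhr : (0 : ℝ) < h := by exact_mod_cast hh
  set δ : ℝ := 1 / (2 * h * V h) with hδ
  have hδpos : 0 < δ := by positivity
  set ε₀ : ℝ := 1 / (2 * (h + 1) * V h) with hε₀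
  have hε₀pos : 0 < ε₀ := by positivity
  refine ⟨ε₀, hε₀pos, ?_⟩
  intro ε hε hεle
  have hsmall : δ * h * V h + ε * (h + 1) * V h ≤ 1 := by
    have h1 : δ * h * V h = 1 / 2 := by
      rw [hδ]
      field_simp
    have h2 : ε * (h + 1) * V h ≤ 1 / 2 := by
      have h3 : ε₀ * (h + 1) * V h = 1 / 2 := by
        rw [hε₀]
        field_simp
      have h4 : ε * ((h + 1) * V h) ≤ ε₀ * ((h + 1) * V h) :=
        mul_le_mul_of_nonneg_right hεle (by positivity)
      linarith
    linarith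
  set N : ℕ := Fintype.card (Pat h) with hN
  obtain ⟨n₀, hn₀, hT⟩ := tail δ hδpos ((N : ENNReal) + 1)⁻¹ (by
    rw [ENNReal.inv_pos]
    exact ENNReal.add_ne_top.mpr ⟨ENNReal.natCast_ne_top N, ENNReal.one_ne_top⟩)
  refine ⟨n₀, hn₀, ?_⟩
  intro μ hμ
  have hT1 : ∑' y, g0 δ n₀ y ≤ 1 := by
    refine hT.le.trans ?_
    rw [ENNReal.inv_le_one]
    exact le_add_self
  classical
  set B : Pat h → Set (ℕ → Bool) := fun c =>
    if LinearIndependent ℚ (ratE (dec h c.2.2)) ∧ c.1.val < (h + 1) * c.2.1.val then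
      Occ (dec h c.2.2) else ∅ with hB
  have hsub : {ω | ¬ Clean h (Ran ω)} ⊆ ⋃ c : Pat h, B c := by
    intro ω hω
    obtain ⟨v, d, E, hv, hd, hEb, hind, hlt, hocc⟩ := occ_of_not_clean h ω hω
    obtain ⟨c, hc⟩ := exists_code h E hEb
    refine Set.mem_iUnion.mpr ⟨⟨⟨v, by omega⟩, ⟨d, by omega⟩, c⟩, ?_⟩
    simp only [hB]
    rw [if_pos]
    · rw [hc]
      exact hocc
    · rw [hc]
      exact ⟨hind, hlt⟩
  have hBle : ∀ c : Pat h, μ (B c) ≤ ∑' y, g0 δ n₀ y := by
    intro c
    simp only [hB]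
    split_ifs with hc
    · apply occ_le h (dec h c.2.2) hc.1 hc.2 δ ε (V h) hδpos hε _ hsmall n₀ hn₀ μ hμ hT1
      have : c.1.val ≤ V h := by
        have := c.1.isLt
        omega
      exact_mod_cast this
    · simp
  calc μ {ω | ¬ Clean h (Ran ω)} ≤ μ (⋃ c : Pat h, B c) := measure_mono hsub
    _ ≤ ∑ c : Pat h, μ (B c) := measure_iUnion_fintype_le μ B
    _ ≤ ∑ _c : Pat h, ∑' y, g0 δ n₀ y := Finset.sum_le_sum fun c _ => hBle c
    _ = (N : ENNReal) * ∑' y, g0 δ n₀ y := by
        rw [Finset.sum_const, Finset.card_univ, nsmul_eq_mul]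
    _ ≤ (N : ENNReal) * ((N : ENNReal) + 1)⁻¹ := by gcongr
    _ < 1 := by
        rw [← div_eq_mul_inv]
        apply (ENNReal.div_lt_iff _ _).mpr
        · rw [one_mul]
          exact_mod_cast Nat.lt_succ_self N
        · left
          simp
        · left
          exact ENNReal.add_ne_top.mpr ⟨ENNReal.natCast_ne_top N, ENNReal.one_ne_top⟩

end Pool.Agent.W2helper40.BH
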