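import Mathlib

/-!
Project BH: pivots of a system of linear equations, the choice of the prefix, and summation by
parts.
-/

set_option autoImplicit false

namespace Pool.Agent.W2helper40.BH

section piv

variable {v d : ℕ}

/-- solutions of the system -/
def Sol (E : Fin d → Fin v → ℚ) : Submodule ℚ (Fin v → ℚ) :=
  LinearMap.ker (Matrix.mulVecLin (Matrix.of E))

theorem mem_Sol {E : Fin d → Fin v → ℚ} {z : Fin v → ℚ} :
    z ∈ Sol E ↔ ∀ a, ∑ i, E a i * z i = 0 := by
  unfold Sol
  rw [LinearMap.mem_ker, Matrix.mulVecLin_apply]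
  constructor
  · intro h a
    have := congrFun h a
    simpa [Matrix.mulVec, dotProduct] using this
  · intro h
    funext a
    simpa [Matrix.mulVec, dotProduct] using h a

theorem finrank_Sol {E : Fin d → Fin v → ℚ} (hE : LinearIndependent ℚ E) :
    Module.finrank ℚ (Sol E) + d = v := by
  have h1 : (Matrix.of E).rank = d := by
    have := LinearIndependent.rank_matrix (M := Matrix.of E) (by simpa using hE)
    simpa using this
  have h2 := LinearMap.finrank_range_add_finrank_ker (Matrix.mulVecLin (Matrix.of E))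
  rw [Matrix.rank] at h1
  rw [h1] at h2
  simp only [Module.finrank_fintype_fun_eq_card, Fintype.card_fin] at h2
  unfold Sol
  omega

/-- the index `i` is free if the coordinate `i` is not determined by the earlier ones -/
def Free (E : Fin d → Fin v → ℚ) (i : Fin v) : Prop :=
  ∃ z ∈ Sol E, (∀ k : Fin v, k < i → z k = 0) ∧ z i ≠ 0

/-- solutions whose first `j` coordinates vanish -/
def Z (E : Fin d → Fin v → ℚ) (j : ℕ) : Submodule ℚ (Fin v → ℚ) where
  carrier := {z | z ∈ Sol E ∧ ∀ k : Fin v, k.val < j → z k = 0}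
  zero_mem' := ⟨Submodule.zero_mem _, fun _ _ => rfl⟩
  add_mem' := by
    rintro a b ⟨h1, h2⟩ ⟨h3, h4⟩
    exact ⟨Submodule.add_mem _ h1 h3, fun k hk => by simp [h2 k hk, h4 k hk]⟩
  smul_mem' := by
    rintro c a ⟨h1, h2⟩
    exact ⟨Submodule.smul_mem _ c h1, fun k hk => by simp [h2 k hk]⟩

open Classical in
/-- number of free indices below `j` -/
noncomputable def Q (E : Fin d → Fin v → ℚ) (j : ℕ) : ℕ :=
  (Finset.univ.filter fun i : Fin v => i.val < j ∧ Free E i).card

theorem Q_zero (E : Fin d → Fin v → ℚ) : Q E 0 = 0 := by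
  simp [Q]

open Classical in
theorem Q_succ (E : Fin d → Fin v → ℚ) (j : ℕ) (hj : j < v) :
    Q E (j + 1) = Q E j + if Free E ⟨j, hj⟩ then 1 else 0 := by
  unfold Q
  by_cases hf : Free E ⟨j, hj⟩
  · rw [if_pos hf]
    have : (Finset.univ.filter fun i : Fin v => i.val < j + 1 ∧ Free E i) =
        insert ⟨j, hj⟩ (Finset.univ.filter fun i : Fin v => i.val < j ∧ Free E i) := by
      ext i
      simp only [Finset.mem_filter, Finset.mem_univ, true_and, Finset.mem_insert]
      constructor
      · rintro ⟨h1, h2⟩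
        rcases Nat.lt_succ_iff_lt_or_eq.mp h1 with h | h
        · exact Or.inr ⟨h, h2⟩
        · exact Or.inl (Fin.ext h)
      · rintro (h | ⟨h1, h2⟩)
        · subst h
          exact ⟨Nat.lt_succ_self _, hf⟩
        · exact ⟨Nat.lt_succ_of_lt h1, h2⟩
    rw [this, Finset.card_insert_of_notMem]
    simp
  · rw [if_neg hf, add_zero]
    congr 1
    ext i
    simp only [Finset.mem_filter, Finset.mem_univ, true_and]
    constructor
    · rintro ⟨h1, h2⟩
      rcases Nat.lt_succ_iff_lt_or_eq.mp h1 with h | h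
      · exact ⟨h, h2⟩
      · exact absurd (by have : i = ⟨j, hj⟩ := Fin.ext h
                         rwa [← this]) hf
    · rintro ⟨h1, h2⟩
      exact ⟨Nat.lt_succ_of_lt h1, h2⟩

theorem Q_mono (E : Fin d → Fin v → ℚ) {s t : ℕ} (h : s ≤ t) : Q E s ≤ Q E t := by
  classical
  unfold Q
  apply Finset.card_le_card
  intro i
  simp only [Finset.mem_filter, Finset.mem_univ, true_and]
  rintro ⟨h1, h2⟩
  exact ⟨lt_of_lt_of_le h1 h, h2⟩

theorem finrank_Z (E : Fin d → Fin v → ℚ) (j : ℕ) (hj : j ≤ v) :
    Module.finrank ℚ (Z E j) + Q E j ≤ Module.finrank ℚ (Sol E) := by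
  classical
  induction j with
  | zero =>
    rw [Q_zero]
    have : Z E 0 = Sol E := by
      ext z
      constructor
      · rintro ⟨h, _⟩
        exact h
      · intro h
        exact ⟨h, fun k hk => absurd hk (Nat.not_lt_zero _)⟩
    rw [this]
    simp
  | succ j ih =>
    have ih' := ih (by omega)
    rw [Q_succ E j (by omega)]
    have hle : Z E (j + 1) ≤ Z E j := by
      rintro z ⟨h1, h2⟩
      exact ⟨h1, fun k hk => h2 k (Nat.lt_succ_of_lt hk)⟩
    split_ifs with hf
    · have hlt : Z E (j + 1) < Z E j := by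
        refine lt_of_le_of_ne hle ?_
        intro heq
        obtain ⟨z, hz1, hz2, hz3⟩ := hf
        have hz : z ∈ Z E j := ⟨hz1, fun k hk => hz2 k hk⟩
        rw [← heq] at hz
        exact hz3 (hz.2 ⟨j, by omega⟩ (Nat.lt_succ_self _))
      have := Submodule.finrank_lt_finrank_of_lt hlt
      omega
    · have := Submodule.finrank_mono hle
      omega

theorem Q_total {E : Fin d → Fin v → ℚ} (hE : LinearIndependent ℚ E) : Q E v + d ≤ v := by
  have h1 := finrank_Z E v le_rfl
  have h2 := finrank_Sol hE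
  omega

/-- solutions which agree at the free indices below `j` agree below `j` -/
theorem determined (E : Fin d → Fin v → ℚ) (j : ℕ) {x y : Fin v → ℚ} (hx : x ∈ Sol E)
    (hy : y ∈ Sol E) (h : ∀ i : Fin v, i.val < j → Free E i → x i = y i) :
    ∀ i : Fin v, i.val < j → x i = y i := by
  intro i
  obtain ⟨i, hi⟩ := i
  induction i using Nat.strong_induction_on with
  | _ i ih =>
    intro hij
    by_contra hne
    apply hne
    apply h ⟨i, hi⟩ hij
    refine ⟨x - y, Submodule.sub_mem _ hx hy, ?_, ?_⟩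
    · intro k hk
      have := ih k.val hk k.isLt (lt_trans hk hij)
      simp only [Pi.sub_apply]
      rw [sub_eq_zero]
      exact this
    · simp only [Pi.sub_apply]
      rwa [sub_ne_zero]

/-- the choice of the prefix -/
theorem exists_prefix (H v : ℕ) (q : ℕ → ℕ) (h0 : q 0 = 0)
    (hv : (v : ℤ) < H * (v - q v)) :
    ∃ j : ℕ, 1 ≤ j ∧ j ≤ v ∧ ∀ t < j, (H : ℤ) * (t - q t) - t < H * (j - q j) - j := by
  classical
  set ψ : ℕ → ℤ := fun j => H * (j - q j) - j with hψ
  have hex : ∃ j, j ≤ v ∧ ∀ i ≤ v, ψ i ≤ ψ j := by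
    obtain ⟨j, hj1, hj2⟩ := Finset.exists_max_image (Finset.range (v + 1)) ψ ⟨0, by simp⟩
    refine ⟨j, by simpa [Nat.lt_succ_iff] using hj1, ?_⟩
    intro i hi
    exact hj2 i (by simpa [Nat.lt_succ_iff] using hi)
  obtain ⟨hj1, hj2⟩ := Nat.find_spec hex
  set j := Nat.find hex with hj
  refine ⟨j, ?_, hj1, ?_⟩
  · by_contra hlt
    have hj0 : j = 0 := by omega
    have := hj2 v le_rfl
    rw [hj0] at this
    simp only [hψ, h0] at this
    push_cast at this
    have h2 := hv
    linarith
  · intro t ht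
    have hnot := Nat.find_min hex ht
    push Not at hnot
    obtain ⟨i, hi1, hi2⟩ := hnot (by omega)
    exact lt_of_lt_of_le hi2 (hj2 i hi1)

end piv

/-- summation by parts -/
theorem abel (j : ℕ) (c l : ℕ → ℝ) (hl0 : ∀ i < j, 0 ≤ l i)
    (hl : ∀ i, i + 1 < j → l i ≤ l (i + 1)) (hc : ∀ t < j, 0 ≤ ∑ i ∈ Finset.Ico t j, c i) :
    0 ≤ ∑ i ∈ Finset.range j, c i * l i := by
  have key : ∀ s t : ℕ, s + t = j → 0 < s →
      (∑ i ∈ Finset.Ico t j, c i) * l t ≤ ∑ i ∈ Finset.Ico t j, c i * l i := by
    intro s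
    induction s with
    | zero =>
      intro t _ h
      omega
    | succ s ih =>
      intro t ht _
      rcases Nat.eq_zero_or_pos s with hs | hs
      · have : Finset.Ico t j = {t} := by
          ext i
          simp only [Finset.mem_Ico, Finset.mem_singleton]
          omega
        rw [this]
        simp
      · have h1 := ih (t + 1) (by omega) hs
        have hlt : t < j := by omega
        rw [Finset.sum_eq_sum_Ico_succ_bot hlt, Finset.sum_eq_sum_Ico_succ_bot hlt, add_mul]
        have h2 : (∑ i ∈ Finset.Ico (t + 1) j, c i) * l t ≤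
            (∑ i ∈ Finset.Ico (t + 1) j, c i) * l (t + 1) :=
          mul_le_mul_of_nonneg_left (hl t (by omega)) (hc (t + 1) (by omega))
        linarith
  rcases Nat.eq_zero_or_pos j with hj | hj
  · subst hj
    simp
  · have h1 := key j 0 (by omega) hj
    rw [Finset.range_eq_Ico]
    exact le_trans (mul_nonneg (hc 0 hj) (hl0 0 hj)) h1

end Pool.Agent.W2helper40.BH
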