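import Pool.Agent.W2helper40.BH.Stm
import Pool.Agent.W2helper40.BH.Piv

/-!
Project BH: the union bound for one pattern.
-/

set_option autoImplicit false

namespace Pool.Agent.W2helper40.BH

open MeasureTheory

theorem tsum_pi_le {G : Type} [Fintype G] (g : ℕ → ENNReal) :
    ∑' y : G → ℕ, ∏ i, g (y i) ≤ (∑' n, g n) ^ (Fintype.card G) := by
  classical
  rw [ENNReal.tsum_eq_iSup_sum]
  refine iSup_le fun s => ?_
  set t : Finset ℕ := s.biUnion fun y => Finset.univ.image y with ht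
  have hst : s ⊆ Fintype.piFinset fun _ : G => t := by
    intro y hy
    rw [Fintype.mem_piFinset]
    intro i
    exact Finset.mem_biUnion.mpr ⟨y, hy, Finset.mem_image.mpr ⟨i, Finset.mem_univ _, rfl⟩⟩
  calc ∑ y ∈ s, ∏ i, g (y i) ≤ ∑ y ∈ Fintype.piFinset fun _ : G => t, ∏ i, g (y i) :=
        Finset.sum_le_sum_of_subset hst
    _ = ∏ _i : G, ∑ a ∈ t, g a := (Finset.prod_univ_sum (fun _ : G => t) fun _ a => g a).symm
    _ ≤ ∏ _i : G, ∑' n, g n := by
        apply Finset.prod_le_prod'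
        intro i _
        exact ENNReal.sum_le_tsum t
    _ = (∑' n, g n) ^ (Fintype.card G) := by
        rw [Finset.prod_const, Finset.card_univ]

section

variable {v d : ℕ}

/-- the rational version of an integral system -/
def ratE (E : Fin d → Fin v → ℤ) : Fin d → Fin v → ℚ := fun a i => (E a i : ℚ)

/-- the pattern `E` occurs -/
def Occ (E : Fin d → Fin v → ℤ) : Set (ℕ → Bool) :=
  {ω | ∃ x : Fin v → ℕ, StrictMono x ∧ (∀ i, ω (x i) = true) ∧
    ∀ a, ∑ i, E a i * (x i : ℤ) = 0}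

open Classical in
/-- indicator of free indices -/
noncomputable def phi (E : Fin d → Fin v → ℚ) (i : ℕ) : ℕ :=
  if h : i < v then (if Free E ⟨i, h⟩ then 1 else 0) else 0

theorem Q_eq_sum (E : Fin d → Fin v → ℚ) (j : ℕ) (hj : j ≤ v) :
    Q E j = ∑ i ∈ Finset.range j, phi E i := by
  classical
  induction j with
  | zero => simp [Q_zero]
  | succ j ih =>
    rw [Q_succ E j (by omega), Finset.sum_range_succ, ← ih (by omega)]
    congr 1
    unfold phi
    rw [dif_pos (show j < v by omega)]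

theorem Q_sub (E : Fin d → Fin v → ℚ) (t j : ℕ) (htj : t ≤ j) (hj : j ≤ v) :
    (∑ i ∈ Finset.Ico t j, (phi E i : ℝ)) = (Q E j : ℝ) - Q E t := by
  rw [Q_eq_sum E j hj, Q_eq_sum E t (by omega), Finset.sum_Ico_eq_sub _ htj]
  push_cast
  rfl

/-- the pointwise inequality -/
theorem weight_le (h : ℕ) (E : Fin d → Fin v → ℚ) (j : ℕ) (hjv : j ≤ v) (δ ε : ℝ)
    (hδ : 0 < δ) (hε : 0 < ε) (V₀ : ℝ) (hvV : (v : ℝ) ≤ V₀)
    (hsmall : δ * h * V₀ + ε * (h + 1) * V₀ ≤ 1)
    (hj : ∀ t < j, ((h + 1 : ℕ) : ℤ) * (t - Q E t) - t < ((h + 1 : ℕ) : ℤ) * (j - Q E j) - j)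
    (x : Fin v → ℕ) (hx : StrictMono x) (hx1 : ∀ i, 1 ≤ x i) :
    ∏ i : Fin j, (x (Fin.castLE hjv i) : ℝ) ^ (-((h : ℝ) / (h + 1) - ε)) ≤
      ∏ i : Fin j, (x (Fin.castLE hjv i) : ℝ) ^ (-((1 + δ) * phi E i)) := by
  set β : ℝ := (h : ℝ) / (h + 1) - ε with hβ
  have hpos : ∀ i, (0 : ℝ) < x i := fun i => by exact_mod_cast hx1 i
  set l : ℕ → ℝ := fun i => if hi : i < v then Real.log (x ⟨i, hi⟩) else 0 with hl
  set c : ℕ → ℝ := fun i => β - (1 + δ) * phi E i with hc
  have key := abel j c l ?_ ?_ ?_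
  · have e1 : ∀ γ : ℕ → ℝ, ∏ i : Fin j, (x (Fin.castLE hjv i) : ℝ) ^ (-(γ i)) =
        Real.exp (-∑ i ∈ Finset.range j, γ i * l i) := by
      intro γ
      rw [← Finset.sum_neg_distrib, Real.exp_sum, ← Fin.prod_univ_eq_prod_range
        (fun i => Real.exp (-(γ i * l i))) j]
      apply Finset.prod_congr rfl
      intro i _
      rw [Real.rpow_def_of_pos (hpos _)]
      congr 1
      simp only [hl]
      rw [dif_pos (lt_of_lt_of_le i.isLt hjv)]
      have : Fin.castLE hjv i = ⟨i.val, lt_of_lt_of_le i.isLt hjv⟩ := rfl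
      rw [this]
      ring
    have e2 := e1 fun _ => β
    have e3 := e1 fun i => (1 + δ) * phi E i
    rw [e2, e3]
    apply Real.exp_le_exp.mpr
    have e4 : ∑ i ∈ Finset.range j, c i * l i =
        ∑ i ∈ Finset.range j, β * l i - ∑ i ∈ Finset.range j, (1 + δ) * phi E i * l i := by
      rw [← Finset.sum_sub_distrib]
      apply Finset.sum_congr rfl
      intro i _
      simp only [hc]
      ring
    rw [e4] at key
    linarith
  · intro i hi
    simp only [hl]
    rw [dif_pos (lt_of_lt_of_le hi hjv)]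
    apply Real.log_nonneg
    exact_mod_cast hx1 _
  · intro i hi
    simp only [hl]
    rw [dif_pos (show i < v by omega), dif_pos (show i + 1 < v by omega)]
    apply Real.log_le_log (hpos _)
    have : x ⟨i, by omega⟩ < x ⟨i + 1, by omega⟩ := hx (by
      rw [Fin.lt_def]
      exact Nat.lt_succ_self i)
    exact_mod_cast this.le
  · intro t ht
    simp only [hc]
    rw [Finset.sum_sub_distrib, ← Finset.mul_sum, Q_sub E t j ht.le hjv, Finset.sum_const,
      Nat.card_Ico, nsmul_eq_mul]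
    have h1 : ((h + 1 : ℕ) : ℝ) * (t - Q E t) - t + 1 ≤ ((h + 1 : ℕ) : ℝ) * (j - Q E j) - j := by
      have := hj t ht
      have h2 : ((h + 1 : ℕ) : ℤ) * (t - Q E t) - t + 1 ≤
          ((h + 1 : ℕ) : ℤ) * (j - Q E j) - j := by omega
      exact_mod_cast h2
    push_cast at h1
    rw [Nat.cast_sub ht.le]
    have hjt : (1 : ℝ) ≤ (j : ℝ) - t := by
      have : t + 1 ≤ j := ht
      have : ((t + 1 : ℕ) : ℝ) ≤ j := by exact_mod_cast this
      push_cast at this
      linarith
    have hjtV : (j : ℝ) - t ≤ V₀ := by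
      have h3 : (j : ℝ) ≤ v := by exact_mod_cast hjv
      have h4 : (0 : ℝ) ≤ t := Nat.cast_nonneg _
      linarith
    set m : ℝ := (j : ℝ) - t with hm
    set q : ℝ := (Q E j : ℝ) - Q E t with hq
    have hh : (0 : ℝ) ≤ h := Nat.cast_nonneg _
    have h5 : ((h : ℝ) + 1) * q ≤ h * m - 1 := by
      rw [hq, hm]
      linarith
    have h6 : (h : ℝ) + 1 > 0 := by linarith
    have h7 : ((h : ℝ) + 1) * (m * β - (1 + δ) * q) ≥ 0 := by
      have h8 : ((h : ℝ) + 1) * (m * β) = h * m - ε * (h + 1) * m := by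
        rw [hβ]
        field_simp
      have h9 : (1 + δ) * (((h : ℝ) + 1) * q) ≤ (1 + δ) * (h * m - 1) :=
        mul_le_mul_of_nonneg_left h5 (by linarith)
      have h10 : δ * h * m ≤ δ * h * V₀ :=
        mul_le_mul_of_nonneg_left hjtV (by positivity)
      have h11 : ε * (h + 1) * m ≤ ε * (h + 1) * V₀ :=
        mul_le_mul_of_nonneg_left hjtV (by positivity)
      nlinarith
    by_contra hneg
    push Not at hneg
    have : ((h : ℝ) + 1) * (m * β - (1 + δ) * q) < 0 := mul_neg_of_pos_of_neg h6 hneg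
    linarith

end

end Pool.Agent.W2helper40.BH
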