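import Pool.Agent.W2helper40.BH.Occ

/-!
Project BH: the probability of one pattern.
-/

set_option autoImplicit false

namespace Pool.Agent.W2helper40.BH

open MeasureTheory

/-- the summand -/
noncomputable def g0 (δ : ℝ) (n₀ : ℕ) (y : ℕ) : ENNReal :=
  if n₀ ≤ y then ENNReal.ofReal ((y : ℝ) ^ (-(1 + δ))) else 0

theorem dens_nonneg (β : ℝ) (n₀ a : ℕ) : 0 ≤ dens β n₀ a := by
  unfold dens
  split_ifs
  · positivity
  · exact le_rfl

theorem null_small {β : ℝ} {n₀ : ℕ} {μ : Measure (ℕ → Bool)} (hμ : Coins (dens β n₀) μ) :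
    μ (⋃ a ∈ Finset.range n₀, {ω : ℕ → Bool | ω a = true}) = 0 := by
  refine measure_iUnion_null fun a => measure_iUnion_null fun ha => ?_
  have h1 := hμ.2 {a} ∅ (by simp)
  have h2 : {ω : ℕ → Bool | (∀ b ∈ ({a} : Finset ℕ), ω b = true) ∧
      ∀ b ∈ (∅ : Finset ℕ), ω b = false} = {ω | ω a = true} := by
    ext ω
    simp
  rw [h2] at h1
  rw [h1]
  have : dens β n₀ a = 0 := by
    unfold dens
    rw [if_neg]
    have := Finset.mem_range.mp ha
    omega
  simp [this]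

section

variable {v d : ℕ}

theorem occ_le (h : ℕ) (E : Fin d → Fin v → ℤ) (hE : LinearIndependent ℚ (ratE E))
    (hvd : v < (h + 1) * d) (δ ε V₀ : ℝ) (hδ : 0 < δ) (hε : 0 < ε) (hvV : (v : ℝ) ≤ V₀)
    (hsmall : δ * h * V₀ + ε * (h + 1) * V₀ ≤ 1) (n₀ : ℕ) (hn₀ : 1 ≤ n₀)
    (μ : Measure (ℕ → Bool)) (hμ : Coins (dens ((h : ℝ) / (h + 1) - ε) n₀) μ)
    (hT : ∑' y, g0 δ n₀ y ≤ 1) : μ (Occ E) ≤ ∑' y, g0 δ n₀ y := by
  classical
  set F := ratE E with hF
  have hQ := Q_total hE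
  obtain ⟨j, hj1, hjv, hj⟩ := exists_prefix (h + 1) v (Q F) (Q_zero F) (by
    have h1 : (d : ℤ) ≤ v - Q F v := by
      have : (Q F v : ℤ) + d ≤ v := by exact_mod_cast hQ
      linarith
    have h2 : (v : ℤ) < ((h + 1 : ℕ) : ℤ) * d := by exact_mod_cast hvd
    have h3 : ((h + 1 : ℕ) : ℤ) * d ≤ ((h + 1 : ℕ) : ℤ) * (v - Q F v) :=
      mul_le_mul_of_nonneg_left h1 (by positivity)
    linarith)
  set U : Set (Fin j → ℕ) := {u | ∃ x : Fin v → ℕ, StrictMono x ∧ (∀ i, n₀ ≤ x i) ∧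
    (∀ a, ∑ i, E a i * (x i : ℤ) = 0) ∧ ∀ i, u i = x (Fin.castLE hjv i)} with hU
  have hsub : Occ E ⊆ (⋃ a ∈ Finset.range n₀, {ω : ℕ → Bool | ω a = true}) ∪
      ⋃ u ∈ U, {ω : ℕ → Bool | ∀ i, ω (u i) = true} := by
    rintro ω ⟨x, hx1, hx2, hx3⟩
    by_cases hsm : ∀ i, n₀ ≤ x i
    · right
      refine Set.mem_iUnion₂.mpr ⟨fun i => x (Fin.castLE hjv i), ⟨x, hx1, hsm, hx3, fun _ => rfl⟩,
        fun i => hx2 _⟩
    · left
      push Not at hsm
      obtain ⟨i, hi⟩ := hsm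
      exact Set.mem_iUnion₂.mpr ⟨x i, Finset.mem_range.mpr hi, hx2 i⟩
  have hsol : ∀ x : Fin v → ℕ, (∀ a, ∑ i, E a i * (x i : ℤ) = 0) →
      (fun i => (x i : ℚ)) ∈ Sol F := by
    intro x hx
    rw [mem_Sol]
    intro a
    have := hx a
    have h2 : ((∑ i, E a i * (x i : ℤ) : ℤ) : ℚ) = 0 := by rw [this]; simp
    push_cast at h2
    simpa [hF, ratE] using h2
  -- the restriction to free coordinates
  set G := {i : Fin j // Free F (Fin.castLE hjv i)} with hG
  set res : U → (G → ℕ) := fun u g => u.1 g.1 with hres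
  have hinj : Function.Injective res := by
    rintro ⟨u, x, hx1, hx2, hx3, hx4⟩ ⟨w, y, hy1, hy2, hy3, hy4⟩ huw
    apply Subtype.ext
    funext i
    have h1 := determined F j (hsol x hx3) (hsol y hy3) ?_ (Fin.castLE hjv i) i.isLt
    · have h2 : x (Fin.castLE hjv i) = y (Fin.castLE hjv i) := by exact_mod_cast h1
      simp only
      rw [hx4, hy4, h2]
    · intro k hk hfree
      have hk' : Fin.castLE hjv ⟨k.val, hk⟩ = k := rfl
      have h3 := congrFun huw ⟨⟨k.val, hk⟩, by rw [hk']; exact hfree⟩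
      simp only [hres] at h3
      rw [hx4, hy4, hk'] at h3
      rw [h3]
  have hgpos : U.Nonempty → 1 ≤ Fintype.card G := by
    rintro ⟨u, x, hx1, hx2, hx3, hx4⟩
    by_contra hcard
    have hempty : IsEmpty G := by
      rw [← Fintype.card_eq_zero_iff]
      omega
    have h1 := determined F j (hsol x hx3) (Submodule.zero_mem (Sol F)) ?_
      (Fin.castLE hjv ⟨0, hj1⟩) hj1
    · have h2 := hx2 (Fin.castLE hjv ⟨0, hj1⟩)
      have h3 : x (Fin.castLE hjv ⟨0, hj1⟩) = 0 := by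
        have : ((x (Fin.castLE hjv ⟨0, hj1⟩) : ℕ) : ℚ) = 0 := h1
        exact_mod_cast this
      omega
    · intro k hk hfree
      exact (hempty.false ⟨⟨k.val, hk⟩, hfree⟩).elim
  have hmeas : ∀ u : U, μ {ω : ℕ → Bool | ∀ i, ω (u.1 i) = true} ≤ ∏ g : G, g0 δ n₀ (res u g) := by
    rintro ⟨u, x, hx1, hx2, hx3, hx4⟩
    have huinj : Function.Injective u := by
      intro a b hab
      rw [hx4, hx4] at hab
      have := hx1.injective hab
      exact Fin.castLE_injective hjv this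
    have h1 := hμ.2 (Finset.univ.image u) ∅ (by simp)
    have h2 : {ω : ℕ → Bool | (∀ b ∈ Finset.univ.image u, ω b = true) ∧
        ∀ b ∈ (∅ : Finset ℕ), ω b = false} = {ω | ∀ i, ω (u i) = true} := by
      ext ω
      simp
    rw [h2] at h1
    simp only
    rw [h1, Finset.prod_empty, mul_one, Finset.prod_image (fun a _ b _ hab => huinj hab)]
    have h3 : ∏ i : Fin j, dens ((h : ℝ) / (h + 1) - ε) n₀ (u i) =
        ∏ i : Fin j, (x (Fin.castLE hjv i) : ℝ) ^ (-((h : ℝ) / (h + 1) - ε)) := by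
      apply Finset.prod_congr rfl
      intro i _
      rw [hx4]
      unfold dens
      rw [if_pos (hx2 _)]
    have h4 := weight_le h F j hjv δ ε hδ hε V₀ hvV hsmall hj x hx1
      (fun i => le_trans hn₀ (hx2 i))
    have h5 : ∏ i : Fin j, (x (Fin.castLE hjv i) : ℝ) ^ (-((1 + δ) * phi F i)) =
        ∏ g : G, (u g.1 : ℝ) ^ (-(1 + δ)) := by
      have e1 : ∀ i : Fin j, (x (Fin.castLE hjv i) : ℝ) ^ (-((1 + δ) * phi F i)) =
          if Free F (Fin.castLE hjv i) then (u i : ℝ) ^ (-(1 + δ)) else 1 := by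
        intro i
        rw [hx4]
        have hphi : phi F i = if Free F (Fin.castLE hjv i) then 1 else 0 := by
          unfold phi
          rw [dif_pos (lt_of_lt_of_le i.isLt hjv)]
          rfl
        rw [hphi]
        split_ifs with hf
        · simp
        · simp
      rw [Finset.prod_congr rfl (fun i _ => e1 i), ← Finset.prod_filter]
      rw [← Finset.prod_subtype_eq_prod_filter]
      apply Finset.prod_bij (fun (g : {i : Fin j // Free F (Fin.castLE hjv i)}) _ => (g : G))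
      · intro a _
        exact Finset.mem_univ _
      · intro a _ b _ hab
        exact hab
      · intro b _
        exact ⟨b, by simp, rfl⟩
      · intro a _
        rfl
    rw [h3]
    calc ENNReal.ofReal (∏ i : Fin j, (x (Fin.castLE hjv i) : ℝ) ^ (-((h : ℝ) / (h + 1) - ε)))
        ≤ ENNReal.ofReal (∏ i : Fin j, (x (Fin.castLE hjv i) : ℝ) ^ (-((1 + δ) * phi F i))) :=
          ENNReal.ofReal_le_ofReal h4
      _ = ENNReal.ofReal (∏ g : G, (u g.1 : ℝ) ^ (-(1 + δ))) := by rw [h5]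
      _ = ∏ g : G, ENNReal.ofReal ((u g.1 : ℝ) ^ (-(1 + δ))) :=
          ENNReal.ofReal_prod_of_nonneg (fun _ _ => by positivity)
      _ = ∏ g : G, g0 δ n₀ (u g.1) := by
          apply Finset.prod_congr rfl
          intro g _
          unfold g0
          rw [if_pos]
          rw [hx4]
          exact hx2 _
      _ ≤ _ := le_rfl
  have hstep1 : μ (Occ E) ≤ μ (⋃ u ∈ U, {ω : ℕ → Bool | ∀ i, ω (u i) = true}) := by
    calc μ (Occ E) ≤ μ ((⋃ a ∈ Finset.range n₀, {ω : ℕ → Bool | ω a = true}) ∪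
        ⋃ u ∈ U, {ω : ℕ → Bool | ∀ i, ω (u i) = true}) := measure_mono hsub
      _ ≤ μ (⋃ a ∈ Finset.range n₀, {ω : ℕ → Bool | ω a = true}) +
          μ (⋃ u ∈ U, {ω : ℕ → Bool | ∀ i, ω (u i) = true}) := measure_union_le _ _
      _ = μ (⋃ u ∈ U, {ω : ℕ → Bool | ∀ i, ω (u i) = true}) := by rw [null_small hμ, zero_add]
  rcases U.eq_empty_or_nonempty with hUe | hUne
  · rw [hUe] at hstep1
    simp only [Set.mem_empty_iff_false, Set.iUnion_of_empty, Set.iUnion_empty, measure_empty]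
      at hstep1
    exact le_trans hstep1 zero_le
  have hG1 := hgpos hUne
  calc μ (Occ E) ≤ μ (⋃ u ∈ U, {ω : ℕ → Bool | ∀ i, ω (u i) = true}) := hstep1
    _ ≤ ∑' u : U, μ {ω : ℕ → Bool | ∀ i, ω (u.1 i) = true} :=
        measure_biUnion_le μ U.to_countable _
    _ ≤ ∑' u : U, ∏ g : G, g0 δ n₀ (res u g) := ENNReal.tsum_le_tsum hmeas
    _ ≤ ∑' y : G → ℕ, ∏ g : G, g0 δ n₀ (y g) :=
        ENNReal.tsum_comp_le_tsum_of_injective hinj (fun y : G → ℕ => ∏ g : G, g0 δ n₀ (y g))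
    _ ≤ (∑' y, g0 δ n₀ y) ^ Fintype.card G := tsum_pi_le _
    _ ≤ ∑' y, g0 δ n₀ y := by
        calc (∑' y, g0 δ n₀ y) ^ Fintype.card G ≤ (∑' y, g0 δ n₀ y) ^ 1 :=
              pow_le_pow_of_le_one zero_le hT hG1
          _ = ∑' y, g0 δ n₀ y := pow_one _

end

end Pool.Agent.W2helper40.BH
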