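import Mathlib

/-!
Project BH (helper40), problem MP_3c1669_nt: a random asymptotic basis `A` of order `h+1` with
`r_k(n) * (h+1-k) ≤ h` for all `k ≤ h` and all `n`, where `r_k(n)` is the number of multisets of
`k` elements of `A` with sum `n`. Definitions and exact statements of the pieces.
-/

set_option autoImplicit false

namespace Pool.Agent.W2helper40.BH

open MeasureTheory

/-- the representations of `n` as a sum of `k` elements of `A` -/
def Reps (A : Set ℕ) (k n : ℕ) : Set (Multiset ℕ) :=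
  {s | Multiset.card s = k ∧ (∀ a ∈ s, a ∈ A) ∧ s.sum = n}

/-- bound for the sizes of the configurations -/
def V (h : ℕ) : ℕ := 2 * (h + 2) ^ 3

/-- homogeneous linear equations with integer coefficients of size at most `h+1`, with support in
`X`, satisfied by the identity function -/
def Eqs (h : ℕ) (X : Finset ℕ) : Set (ℕ → ℚ) :=
  {e | (∀ x, ∃ z : ℤ, e x = z ∧ |z| ≤ h + 1) ∧ (∀ x, x ∉ X → e x = 0) ∧
    ∑ x ∈ X, e x * (x : ℚ) = 0}

/-- `A` has no small set of elements satisfying too many independent equations -/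
def Clean (h : ℕ) (A : Set ℕ) : Prop :=
  ∀ X : Finset ℕ, (∀ x ∈ X, x ∈ A) → X.card ≤ V h →
    ∀ (d : ℕ) (e : Fin d → ℕ → ℚ), (∀ i, e i ∈ Eqs h X) → LinearIndependent ℚ e →
      (h + 1) * d ≤ X.card

/-- tight families: `(h+1)/(h+1-k)` representations of `m` as a sum of `k` elements, with pairwise
disjoint supports and distinct elements -/
def Tight (A : Set ℕ) (h k : ℕ) (F : Finset (Multiset ℕ)) (m : ℕ) : Prop :=
  1 ≤ k ∧ k ≤ h ∧ F.card * (h + 1 - k) = h + 1 ∧ (∀ s ∈ F, s ∈ Reps A k m ∧ s.Nodup) ∧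
    ∀ s ∈ F, ∀ t ∈ F, s ≠ t → Disjoint s t

/-- `z` is the largest element of a tight family -/
def Del (A : Set ℕ) (h z : ℕ) : Prop :=
  ∃ (k : ℕ) (F : Finset (Multiset ℕ)) (m : ℕ), Tight A h k F m ∧ (∃ s ∈ F, z ∈ s) ∧
    ∀ s ∈ F, ∀ a ∈ s, a ≤ z

/-- PIECE REP. In a clean set: at most `(h+1)/(h+1-k)` representations, with equality only for
tight families. -/
def PropRep : Prop :=
  ∀ (h : ℕ) (A : Set ℕ), 1 ≤ h → 0 ∉ A → Clean h A → ∀ (k n : ℕ), 1 ≤ k → k ≤ h →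
    ∀ F : Finset (Multiset ℕ), (∀ s ∈ F, s ∈ Reps A k n) →
      F.card * (h + 1 - k) ≤ h + 1 ∧ (F.card * (h + 1 - k) = h + 1 → Tight A h k F n)

/-- PIECE DEL. In a clean set, `h+2` pairwise disjoint representations of `n` as a sum of `h+1`
elements cannot all contain a deleted element. -/
def PropDel : Prop :=
  ∀ (h : ℕ) (A : Set ℕ), 1 ≤ h → 0 ∉ A → Clean h A →
    ∀ (n : ℕ) (r : Fin (h + 2) → Multiset ℕ), (∀ i, r i ∈ Reps A (h + 1) n) →
      (∀ i j, i ≠ j → Disjoint (r i) (r j)) → ¬ ∀ i, ∃ z ∈ r i, Del A h z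

/-- the random set -/
def Ran (ω : ℕ → Bool) : Set ℕ := {a | ω a = true}

/-- `μ` is the law of independent coins with success probabilities `p` -/
def Coins (p : ℕ → ℝ) (μ : Measure (ℕ → Bool)) : Prop :=
  IsProbabilityMeasure μ ∧ ∀ S T : Finset ℕ, Disjoint S T →
    μ {ω | (∀ a ∈ S, ω a = true) ∧ ∀ a ∈ T, ω a = false} =
      ENNReal.ofReal ((∏ a ∈ S, p a) * ∏ a ∈ T, (1 - p a))

/-- the density -/
noncomputable def dens (β : ℝ) (n₀ : ℕ) (a : ℕ) : ℝ := if n₀ ≤ a then (a : ℝ) ^ (-β) else 0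

/-- PIECE EXI: independent coins exist -/
def PropExi : Prop :=
  ∀ p : ℕ → ℝ, (∀ a, 0 ≤ p a ∧ p a ≤ 1) → ∃ μ : Measure (ℕ → Bool), Coins p μ

/-- PIECE CLN: for a suitable density, the random set is clean with positive probability -/
def PropCln : Prop :=
  ∀ h : ℕ, 1 ≤ h → ∃ ε₀ : ℝ, 0 < ε₀ ∧ ∀ ε : ℝ, 0 < ε → ε ≤ ε₀ → ∃ n₀ : ℕ, 1 ≤ n₀ ∧
    ∀ μ : Measure (ℕ → Bool), Coins (dens ((h : ℝ) / (h + 1) - ε) n₀) μ →
      μ {ω | ¬ Clean h (Ran ω)} < 1

/-- PIECE BAS: almost surely, if no number has more than `h+1` representations as a sum of `h`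
elements, then every large number has `h+2` pairwise disjoint representations as a sum of `h+1`
elements -/
def PropBas : Prop :=
  ∀ (h : ℕ) (ε : ℝ) (n₀ : ℕ), 1 ≤ h → 0 < ε → ε < (h : ℝ) / (h + 1) → 1 ≤ n₀ →
    ∀ μ : Measure (ℕ → Bool), Coins (dens ((h : ℝ) / (h + 1) - ε) n₀) μ →
      ∀ᵐ ω ∂μ, (∀ (m : ℕ) (F : Finset (Multiset ℕ)), (∀ s ∈ F, s ∈ Reps (Ran ω) h m) →
          F.card ≤ h + 1) →
        ∃ n₁ : ℕ, ∀ n ≥ n₁, ∃ r : Fin (h + 2) → Multiset ℕ,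
          (∀ i, r i ∈ Reps (Ran ω) (h + 1) n) ∧ ∀ i j, i ≠ j → Disjoint (r i) (r j)

/-- the goal -/
def Goal : Prop :=
  ∀ h : ℕ, 1 ≤ h → ∃ A : Set ℕ, 0 ∉ A ∧
    (∀ (k n : ℕ), 1 ≤ k → k ≤ h → (Reps A k n).Finite ∧ (Reps A k n).ncard * (h + 1 - k) ≤ h) ∧
    ∃ N : ℕ, ∀ n ≥ N, (Reps A (h + 1) n).Nonempty

end Pool.Agent.W2helper40.BH
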